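import Mathlib

set_option autoImplicit false

namespace Pool.Agent.Results.MP_43f217_an.MaxNotClosed

open Filter Topology

/-- A weighted graph on `X`: symmetric, nonnegative, zero diagonal, summable at each vertex. -/
structure IsWeightedGraph {X : Type} (b : X → X → ℝ) : Prop where
  symm : ∀ x y, b x y = b y x
  nonneg : ∀ x y, 0 ≤ b x y
  diag : ∀ x, b x x = 0
  summable : ∀ x, Summable (b x)

/-- Membership in the weighted space of square summable functions. -/
def InL2 {X : Type} (μ : X → ℝ) (f : X → ℂ) : Prop := Summable fun x => ‖f x‖ ^ 2 * μ x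

/-- The square of the weighted norm. -/
noncomputable def normSq {X : Type} (μ : X → ℝ) (f : X → ℂ) : ℝ := ∑' x, ‖f x‖ ^ 2 * μ x

/-- The formal domain. -/
def FormalDom {X : Type} (b : X → X → ℝ) (f : X → ℂ) : Prop :=
  ∀ x, Summable fun y => b x y * ‖f y‖

/-- The formal Schrodinger operator with potential `W`. -/
noncomputable def formal {X : Type} (b : X → X → ℝ) (μ W : X → ℝ) (f : X → ℂ) (x : X) : ℂ :=
  (1 / μ x : ℝ) * ∑' y, (b x y : ℂ) * (f x - f y) + (W x : ℂ) * f x

/-- The domain of the maximal restriction. -/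
def MaxDom {X : Type} (b : X → X → ℝ) (μ W : X → ℝ) (f : X → ℂ) : Prop :=
  FormalDom b f ∧ InL2 μ f ∧ InL2 μ (formal b μ W f)

/-- The maximal restriction is a closed operator. -/
def MaxClosed {X : Type} (b : X → X → ℝ) (μ W : X → ℝ) : Prop :=
  ∀ (u : ℕ → X → ℂ) (f g : X → ℂ), (∀ n, MaxDom b μ W (u n)) → InL2 μ f → InL2 μ g →
    Tendsto (fun n => normSq μ (fun x => u n x - f x)) atTop (𝓝 0) →
    Tendsto (fun n => normSq μ (fun x => formal b μ W (u n) x - g x)) atTop (𝓝 0) →
    MaxDom b μ W f ∧ formal b μ W f = g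

/-- The maximal restriction is densely defined. -/
def MaxDense {X : Type} (b : X → X → ℝ) (μ W : X → ℝ) : Prop :=
  ∀ f : X → ℂ, InL2 μ f → ∀ ε : ℝ, 0 < ε →
    ∃ h, MaxDom b μ W h ∧ normSq μ (fun x => h x - f x) < ε

/-- vertices: `none` is the centre, `(j,0)`, `(j,1)` a pair, `(j,2)` attached to the pair. -/
abbrev V := Option (ℕ × Fin 3)

noncomputable def bb : V → V → ℝ
  | none, none => 0
  | none, some (j, s) => if s = 2 then 0 else (1 / 2) ^ j
  | some (j, s), none => if s = 2 then 0 else (1 / 2) ^ j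
  | some (i, s), some (j, t) => if i = j ∧ ((s = 2 ∧ t ≠ 2) ∨ (s ≠ 2 ∧ t = 2)) then 1 else 0

noncomputable def mm : V → ℝ
  | none => 1
  | some (j, s) => if s = 2 then 1 else (1 / 4) ^ j

noncomputable def ww (x : V) : ℝ := -(∑' y, bb x y) / mm x

lemma mm_pos (x : V) : 0 < mm x := by
  rcases x with _ | ⟨j, s⟩
  · simp [mm]
  · simp only [mm]; split_ifs <;> positivity

lemma summable_pair (F : ℕ × Fin 3 → ℝ) (hF : ∀ p, 0 ≤ F p) (G : ℕ → ℝ) (hG : Summable G)
    (h : ∀ j s, F (j, s) ≤ G j) : Summable F := by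
  rw [summable_prod_of_nonneg hF]
  refine ⟨fun j => (hasSum_fintype _).summable, ?_⟩
  refine Summable.of_nonneg_of_le (fun j => tsum_nonneg fun s => hF _) (fun j => ?_) (hG.mul_left 3)
  rw [tsum_fintype, Fin.sum_univ_three]
  have := h j 0
  have := h j 1
  have := h j 2
  linarith

lemma summable_V (F : V → ℝ) (hF : ∀ p, 0 ≤ F p) (G : ℕ → ℝ) (hG : Summable G)
    (h : ∀ j s, F (some (j, s)) ≤ G j) : Summable F := by
  have h1 : Summable (F ∘ (some : ℕ × Fin 3 → V)) :=
    summable_pair _ (fun p => hF _) G hG h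
  have h2 : Summable ((fun x : V => if x = none then 0 else F x) ∘ (some : ℕ × Fin 3 → V)) :=
    h1.congr fun p => by simp
  rw [(Option.some_injective _).summable_iff] at h2
  · have h3 : Summable (fun x : V => if x = none then F none else (0:ℝ)) :=
      (hasSum_ite_eq none (F none)).summable
    refine (h2.add h3).congr fun x => ?_
    rcases x with _ | p <;> simp
  · intro x hx
    rcases x with _ | p
    · simp
    · exact absurd ⟨p, rfl⟩ hx

lemma graph_bb : IsWeightedGraph bb := by
  refine ⟨?_, ?_, ?_, ?_⟩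
  · rintro (_ | ⟨i, s⟩) (_ | ⟨j, t⟩) <;> simp only [bb]
    by_cases h : i = j ∧ ((s = 2 ∧ t ≠ 2) ∨ (s ≠ 2 ∧ t = 2))
    · rw [if_pos h, if_pos]; exact ⟨h.1.symm, by tauto⟩
    · rw [if_neg h, if_neg]; intro h'; exact h ⟨h'.1.symm, by tauto⟩
  · rintro (_ | ⟨i, s⟩) (_ | ⟨j, t⟩) <;> simp only [bb] <;> (try split_ifs) <;> positivity
  · rintro (_ | ⟨i, s⟩) <;> simp only [bb]
    rw [if_neg]; tauto
  · rintro (_ | ⟨i, s⟩)
    · refine summable_V _ ?_ (fun j => (1 / 2 : ℝ) ^ j)
        (summable_geometric_of_lt_one (by norm_num) (by norm_num)) ?_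
      · rintro (_ | ⟨j, t⟩) <;> simp only [bb] <;> (try split_ifs) <;> positivity
      · intro j t
        simp only [bb]; split_ifs
        · positivity
        · exact le_rfl
    · refine summable_of_ne_finset_zero (s := {none, some (i, 0), some (i, 1), some (i, 2)}) ?_
      rintro (_ | ⟨j, t⟩) hx
      · simp at hx
      · simp only [bb]
        rw [if_neg]
        rintro ⟨rfl, -⟩
        fin_cases t <;> simp at hx

lemma bb_some_zero (i : ℕ) (s : Fin 3) (y : V)
    (hy : y ∉ ({none, some (i, 0), some (i, 1), some (i, 2)} : Finset V)) :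
    bb (some (i, s)) y = 0 := by
  rcases y with _ | ⟨j, t⟩
  · simp at hy
  · simp only [bb]
    rw [if_neg]
    rintro ⟨rfl, -⟩
    fin_cases t <;> simp at hy

/-- value of the adjacency sum at a non central vertex -/
lemma tsum_some (h : V → ℂ) (j : ℕ) (s : Fin 3) :
    ∑' y, (bb (some (j, s)) y : ℂ) * h y =
      if s = 2 then h (some (j, 0)) + h (some (j, 1)) else (1 / 2) ^ j * h none + h (some (j, 2)) := by
  rw [tsum_eq_sum (s := {none, some (j, 0), some (j, 1), some (j, 2)})]
  · rw [Finset.sum_insert (by simp), Finset.sum_insert (by simp), Finset.sum_insert (by simp),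
      Finset.sum_singleton]
    fin_cases s <;> simp [bb]
  · intro y hy
    rw [bb_some_zero j s y hy]; simp

lemma formal_eq (h : V → ℂ) (x : V) (hs : Summable fun y => bb x y * ‖h y‖) :
    formal bb mm ww h x = -((1 / mm x : ℝ) * ∑' y, (bb x y : ℂ) * h y) := by
  have h1 : Summable fun y => (bb x y : ℂ) * h x := by
    have := (graph_bb.summable x)
    have h2 : Summable fun y => ((bb x y : ℝ) : ℂ) := by exact_mod_cast this
    exact h2.mul_right _
  have h2 : Summable fun y => (bb x y : ℂ) * h y := by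
    refine Summable.of_norm ?_
    refine hs.congr fun y => ?_
    rw [norm_mul, Complex.norm_real, Real.norm_of_nonneg (graph_bb.nonneg x y)]
  have h3 : ∑' y, (bb x y : ℂ) * (h x - h y) = (∑' y, (bb x y : ℂ)) * h x - ∑' y, (bb x y : ℂ) * h y := by
    rw [← tsum_mul_right, ← h1.tsum_sub h2]
    exact tsum_congr fun y => mul_sub _ _ _
  have hm : (mm x : ℂ) ≠ 0 := by exact_mod_cast (mm_pos x).ne'
  rw [formal, h3, ww, ← Complex.ofReal_tsum]
  push_cast
  field_simp
  ring

/-- finite level functions with a correction -/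
noncomputable def hh (f : V → ℂ) (n : ℕ) : V → ℂ
  | none => f none
  | some (j, s) => if j < n then f (some (j, s)) else if s = 2 then -((1 / 2) ^ j * f none) else 0

lemma hh_none_sum (f : V → ℂ) (n : ℕ) : FormalDom bb (hh f n) := by
  rintro (_ | ⟨i, s⟩)
  · refine summable_of_ne_finset_zero (s := insert none (((Finset.range n) ×ˢ (Finset.univ : Finset (Fin 3))).image some)) ?_
    rintro (_ | ⟨j, t⟩) hx
    · simp at hx
    · have hj : ¬ j < n := by
        intro h; apply hx; simp [h]
      simp only [bb, hh, if_neg hj]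
      split_ifs <;> simp
  · refine summable_of_ne_finset_zero (s := {none, some (i, 0), some (i, 1), some (i, 2)}) ?_
    intro y hy
    rw [bb_some_zero i s y hy, zero_mul]

lemma hh_diff (f : V → ℂ) (hf : InL2 mm f) :
    Summable (fun x => 2 * (‖f x‖ ^ 2 * mm x) + 2 * (‖hh f 0 x‖ ^ 2 * mm x)) := by
  refine (hf.mul_left 2).add (Summable.mul_left 2 ?_)
  refine summable_V _ (fun x => mul_nonneg (by positivity) (mm_pos x).le) (fun j => ‖f none‖ ^ 2 * (1 / 4) ^ j)
    ((summable_geometric_of_lt_one (by norm_num) (by norm_num)).mul_left _) ?_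
  intro j s
  simp only [hh, Nat.not_lt_zero, if_false, mm]
  split_ifs
  · rw [norm_neg, norm_mul, norm_pow]
    simp only [norm_div, norm_one, Complex.norm_ofNat, mul_one]
    rw [mul_pow, ← pow_mul, mul_comm j 2, pow_mul]
    norm_num
    rw [mul_comm]
  · simp

lemma hh_bound (f : V → ℂ) (n : ℕ) (x : V) :
    ‖hh f n x - f x‖ ^ 2 * mm x ≤ 2 * (‖f x‖ ^ 2 * mm x) + 2 * (‖hh f 0 x‖ ^ 2 * mm x) := by
  have hm := (mm_pos x).le
  have key : ‖hh f n x - f x‖ ≤ ‖f x‖ + ‖hh f 0 x‖ := by
    rcases x with _ | ⟨j, s⟩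
    · simp [hh]
    · simp only [hh, Nat.not_lt_zero, if_false]
      by_cases h : j < n
      · rw [if_pos h]; simp; positivity
      · rw [if_neg h]
        rw [add_comm]
        exact norm_sub_le _ _
  have h2 : ‖hh f n x - f x‖ ^ 2 ≤ 2 * ‖f x‖ ^ 2 + 2 * ‖hh f 0 x‖ ^ 2 := by
    have := pow_le_pow_left₀ (norm_nonneg _) key 2
    nlinarith [sq_nonneg (‖f x‖ - ‖hh f 0 x‖)]
  calc ‖hh f n x - f x‖ ^ 2 * mm x ≤ (2 * ‖f x‖ ^ 2 + 2 * ‖hh f 0 x‖ ^ 2) * mm x :=
        mul_le_mul_of_nonneg_right h2 hm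
    _ = _ := by ring

lemma hh_tendsto (f : V → ℂ) (hf : InL2 mm f) :
    Tendsto (fun n => normSq mm (fun x => hh f n x - f x)) atTop (𝓝 0) := by
  have h0 : (0 : ℝ) = ∑' _ : V, (0 : ℝ) := by simp
  rw [h0]
  refine tendsto_tsum_of_dominated_convergence (hh_diff f hf) (fun x => ?_) (Eventually.of_forall fun n x => ?_)
  · have : ∀ᶠ n in atTop, ‖hh f n x - f x‖ ^ 2 * mm x = 0 := by
      rcases x with _ | ⟨j, s⟩
      · exact Eventually.of_forall fun n => by simp [hh]
      · filter_upwards [eventually_gt_atTop j] with n hn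
        simp [hh, hn]
    exact tendsto_const_nhds.congr' (this.mono fun n hn => hn.symm)
  · rw [Real.norm_of_nonneg (mul_nonneg (by positivity) (mm_pos x).le)]
    exact hh_bound f n x

lemma hh_L2 (f : V → ℂ) (hf : InL2 mm f) (n : ℕ) : InL2 mm (hh f n) := by
  have h1 : Summable fun x => 2 * (‖f x‖ ^ 2 * mm x) + 2 * (2 * (‖f x‖ ^ 2 * mm x) + 2 * (‖hh f 0 x‖ ^ 2 * mm x)) :=
    (hf.mul_left 2).add ((hh_diff f hf).mul_left 2)
  refine Summable.of_nonneg_of_le (fun x => mul_nonneg (by positivity) (mm_pos x).le) (fun x => ?_) h1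
  have h2 := hh_bound f n x
  have h3 : ‖hh f n x‖ ≤ ‖f x‖ + ‖hh f n x - f x‖ := by
    have := norm_add_le (f x) (hh f n x - f x)
    simpa using this
  have h4 : ‖hh f n x‖ ^ 2 ≤ 2 * ‖f x‖ ^ 2 + 2 * ‖hh f n x - f x‖ ^ 2 := by
    have := pow_le_pow_left₀ (norm_nonneg _) h3 2
    nlinarith [sq_nonneg (‖f x‖ - ‖hh f n x - f x‖)]
  have hm := (mm_pos x).le
  have h5 : ‖hh f n x‖ ^ 2 * mm x ≤ (2 * ‖f x‖ ^ 2 + 2 * ‖hh f n x - f x‖ ^ 2) * mm x :=
    mul_le_mul_of_nonneg_right h4 hm
  nlinarith

lemma hh_dom (f : V → ℂ) (hf : InL2 mm f) (n : ℕ) : MaxDom bb mm ww (hh f n) := by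
  have hF := hh_none_sum f n
  refine ⟨hF, hh_L2 f hf n, ?_⟩
  refine summable_of_ne_finset_zero (s := insert none (((Finset.range n) ×ˢ (Finset.univ : Finset (Fin 3))).image some)) ?_
  rintro (_ | ⟨j, t⟩) hx
  · simp at hx
  · have hj : ¬ j < n := by
      intro h; apply hx; simp [h]
    rw [formal_eq _ _ (hF _), tsum_some]
    simp only [hh, if_neg hj]
    by_cases ht : t = 2
    · simp [ht]
    · simp [ht]

/-- the limit vector -/
noncomputable def f0 : V → ℂ
  | none => 0
  | some (j, s) => if s = 2 then 0 else if s = 0 then 2 ^ j / (j + 1) else -(2 ^ j / (j + 1))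

lemma norm_f0 (j : ℕ) (s : Fin 3) (hs : s ≠ 2) : ‖f0 (some (j, s))‖ = 2 ^ j / (j + 1) := by
  have h1 : ‖((2:ℂ) ^ j / (j + 1))‖ = 2 ^ j / (j + 1) := by
    rw [norm_div, norm_pow, Complex.norm_ofNat]
    congr 1
    have : ((j : ℂ) + 1) = ((j + 1 : ℕ) : ℂ) := by push_cast; ring
    rw [this, Complex.norm_natCast]; push_cast; ring
  simp only [f0, if_neg hs]
  split_ifs
  · exact h1
  · rw [norm_neg]; exact h1

lemma f0_L2 : InL2 mm f0 := by
  refine summable_V _ (fun x => mul_nonneg (by positivity) (mm_pos x).le) (fun j => 1 / ((j : ℝ) + 1) ^ 2) ?_ ?_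
  · have := (summable_nat_add_iff 1).2 (Real.summable_one_div_nat_pow.2 (by norm_num : 1 < 2))
    refine this.congr fun j => ?_
    push_cast; rfl
  · intro j s
    by_cases hs : s = 2
    · simp [f0, hs]; positivity
    · rw [norm_f0 j s hs]
      simp only [mm, if_neg hs]
      rw [div_pow, ← pow_mul, mul_comm j 2, pow_mul, div_mul_eq_mul_div, ← mul_pow]
      norm_num

lemma f0_not : ¬ FormalDom bb f0 := by
  intro h
  have h1 := h none
  have h2 := h1.comp_injective (i := fun j : ℕ => (some (j, 0) : V)) (by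
    intro a b hab; simpa using hab)
  have h3 : Summable fun j : ℕ => 1 / ((j : ℝ) + 1) := by
    refine h2.congr fun j => ?_
    simp only [Function.comp, bb]
    rw [norm_f0 j 0 (by decide), if_neg (by decide), ← mul_div_assoc, ← mul_pow]
    norm_num
  have h4 : Summable fun j : ℕ => 1 / (j : ℝ) := by
    rw [← summable_nat_add_iff 1]
    refine h3.congr fun j => by push_cast; rfl
  exact Real.not_summable_one_div_natCast h4

lemma hh_f0_zero (n : ℕ) (x : V) : formal bb mm ww (hh f0 n) x = 0 := by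
  rw [formal_eq _ _ (hh_none_sum f0 n x)]
  rcases x with _ | ⟨j, s⟩
  · have h1 : ∑' y, (bb none y : ℂ) * hh f0 n y = 0 := by
      have hinj : Function.Injective (some : ℕ × Fin 3 → V) := Option.some_injective _
      rw [← hinj.tsum_eq (f := fun y => (bb none y : ℂ) * hh f0 n y)]
      · have h2 : Summable fun p : ℕ × Fin 3 => (bb none (some p) : ℂ) * hh f0 n (some p) := by
          have h3 := (hh_none_sum f0 n none).comp_injective hinj
          refine Summable.of_norm (h3.congr fun p => ?_)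
          simp only [Function.comp]
          rw [norm_mul, Complex.norm_real, Real.norm_of_nonneg (graph_bb.nonneg _ _)]
        rw [h2.tsum_prod]
        have h4 : ∀ j : ℕ, ∑' s : Fin 3, (bb none (some (j, s)) : ℂ) * hh f0 n (some (j, s)) = 0 := by
          intro j
          rw [tsum_fintype, Fin.sum_univ_three]
          by_cases hj : j < n
          · simp [bb, hh, f0, hj]
          · simp [bb, hh, hj]
        simp only [h4, tsum_zero]
      · intro y hy
        rcases y with _ | p
        · simp [bb] at hy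
        · exact ⟨p, rfl⟩
    rw [h1]; simp
  · rw [tsum_some]
    by_cases hj : j < n
    · by_cases hs : s = 2
      · simp [hs, hh, hj, f0]
      · simp [hs, hh, hj, f0]
    · by_cases hs : s = 2
      · simp [hs, hh, hj]
      · simp [hs, hh, hj, f0]

/-- There is a weighted graph, a weight and a real potential for which the maximal restriction of
the formal Schrodinger operator is densely defined and not closed. -/
theorem result : ∃ (X : Type) (_ : Countable X) (b : X → X → ℝ) (μ W : X → ℝ),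
    IsWeightedGraph b ∧ (∀ x, 0 < μ x) ∧ MaxDense b μ W ∧ ¬ MaxClosed b μ W := by
  refine ⟨V, inferInstance, bb, mm, ww, graph_bb, mm_pos, ?_, ?_⟩
  · intro f hf ε hε
    obtain ⟨n, hn⟩ := ((hh_tendsto f hf).eventually (gt_mem_nhds hε)).exists
    exact ⟨hh f n, hh_dom f hf n, hn⟩
  · intro hcl
    have h := hcl (fun n => hh f0 n) f0 0 (fun n => hh_dom f0 f0_L2 n) f0_L2 (by
      simp [InL2, summable_zero]) (hh_tendsto f0 f0_L2) (by
      have : (fun n => normSq mm (fun x => formal bb mm ww (hh f0 n) x - (0 : V → ℂ) x)) = fun _ => 0 := by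
        funext n
        simp [normSq, hh_f0_zero]
      rw [this]; exact tendsto_const_nhds)
    exact f0_not h.1.1

end Pool.Agent.Results.MP_43f217_an.MaxNotClosed
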